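import Pool.Agent.Helper3_PPZ.Stmts

/-!
# Squad PPZ, module DER: the derivative of a polynomial in `x, z, θ`
-/

set_option autoImplicit false

universe u

namespace Pool.Agent.PPZ.H65

open MvPolynomial PGH PPX

section chain

variable {k E : Type*} [Field k] [Field E] [Algebra k E] (D : Derivation ℤ E E)

/-- chain rule -/
theorem chain (hD : ∀ c : k, D (algebraMap k E c) = 0) {n : ℕ} (p : Fin n → E)
    (Q : MvPolynomial (Fin n) k) :
    D (aeval p Q) = ∑ v, aeval p (pderiv v Q) * D (p v) := by
  induction Q using MvPolynomial.induction_on with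
  | C c =>
    rw [aeval_C, hD]
    simp
  | add P Q hP hQ =>
    rw [map_add, map_add, hP, hQ, ← Finset.sum_add_distrib]
    refine Finset.sum_congr rfl fun v _ => ?_
    rw [map_add, map_add]
    ring
  | mul_X P i hP =>
    rw [map_mul, aeval_X, Derivation.leibniz, hP, smul_eq_mul, smul_eq_mul, Finset.mul_sum]
    have h1 : ∀ v, aeval p (pderiv v (P * X i)) * D (p v) =
        p i * (aeval p (pderiv v P) * D (p v)) + if v = i then aeval p P * D (p i) else 0 := by
      intro v
      rw [Derivation.leibniz, pderiv_X, smul_eq_mul, smul_eq_mul, map_add, map_mul, map_mul,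
        aeval_X]
      by_cases h : v = i
      · subst h
        rw [Pi.single_eq_same, map_one, if_pos rfl]
        ring
      · rw [Pi.single_eq_of_ne (Ne.symm h), map_zero, if_neg h]
        ring
    rw [Finset.sum_congr rfl fun v _ => h1 v, Finset.sum_add_distrib, Finset.sum_ite_eq',
      if_pos (Finset.mem_univ i)]
    ring

end chain

section prod

variable {k E : Type*} [Field k] [Field E] [Algebra k E]

/-- the derivative of a product of linear polynomials -/
theorem prod_der {n : ℕ} (p : Fin n → E) (v : Fin n) {ι : Type*} [DecidableEq ι] (s : Finset ι)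
    (a : ι → k) (h : ∀ i ∈ s, p v - algebraMap k E (a i) ≠ 0) :
    aeval p (pderiv v (∏ i ∈ s, (X v - C (a i)) : MvPolynomial (Fin n) k)) =
      aeval p (∏ i ∈ s, (X v - C (a i)) : MvPolynomial (Fin n) k) *
        ∑ i ∈ s, (p v - algebraMap k E (a i))⁻¹ := by
  induction s using Finset.induction_on with
  | empty => simp
  | insert j s hj ih =>
    have ih' := ih fun i hi => h i (Finset.mem_insert_of_mem hi)
    have hj' := h j (Finset.mem_insert_self j s)
    rw [Finset.prod_insert hj, Finset.sum_insert hj, Derivation.leibniz, smul_eq_mul, smul_eq_mul,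
      map_add, map_mul, map_mul, ih', map_mul, map_sub, map_sub, pderiv_X_self, pderiv_C,
      aeval_X, aeval_C, sub_zero, map_one]
    field_simp
    ring

end prod

/-- DER -/
theorem der : DerStmt.{u} := by
  intro k _ _ _ N₁ N₂ a b C Q hQ
  have hD : ∀ c : k, C.D (algebraMap k C.E c) = 0 := fun c => (C.ker _).2 ⟨c, rfl⟩
  have hx : ∀ i, C.x - algebraMap k C.E (a i) ≠ 0 := by
    intro i h
    apply C.dx
    rw [sub_eq_zero.1 h]
    exact hD _
  have hz : ∀ j, C.z - algebraMap k C.E (b j) ≠ 0 := by
    intro i h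
    apply C.dz
    rw [sub_eq_zero.1 h]
    exact hD _
  have hdz := C.dz
  have hdx := C.dx
  have hth : C.th * C.D C.z = C.D C.x := by
    unfold BC.th PPX.th
    field_simp
  have hth0 : C.th ≠ 0 := by
    unfold BC.th PPX.th
    exact div_ne_zero hdx hdz
  obtain ⟨S, hS⟩ : ∃ S, S = ∑ i, (C.x - algebraMap k C.E (a i))⁻¹ := ⟨_, rfl⟩
  obtain ⟨T, hT⟩ : ∃ T, T = ∑ j, (C.z - algebraMap k C.E (b j))⁻¹ := ⟨_, rfl⟩
  have hla : C.D C.th = C.th * (C.la * C.D C.z + 2 * (C.D C.x * S - C.D C.z * T)) := by
    have h1 : C.la = (C.D C.th / C.th - 2 * (C.D C.x * S - C.D C.z * T)) / C.D C.z := by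
      unfold BC.la PPX.la
      rw [hS, hT, Finset.mul_sum, Finset.mul_sum]
      simp only [div_eq_mul_inv]
      rfl
    rw [h1]
    field_simp
    ring
  have hch := chain C.D hD C.pt Q
  rw [Fin.sum_univ_four] at hch
  have h3 : pderiv 3 Q = 0 := by
    apply pderiv_eq_zero_of_notMem_vars
    intro h
    exact (mem_vars_iff_degreeOf_ne_zero.1 h) hQ
  rw [h3, map_zero, zero_mul, add_zero] at hch
  have hf : aeval C.pt (pderiv 0 (fx a)) = aeval C.pt (fx a) * S := by
    rw [hS]
    exact prod_der C.pt 0 Finset.univ a fun i _ => hx i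
  have hg : aeval C.pt (pderiv 1 (gz b)) = aeval C.pt (gz b) * T := by
    rw [hT]
    exact prod_der C.pt 1 Finset.univ b fun j _ => hz j
  have p0 : C.pt 0 = C.x := rfl
  have p1 : C.pt 1 = C.z := rfl
  have p2 : C.pt 2 = C.th := rfl
  have p3 : C.pt 3 = C.la := rfl
  unfold BC.ev
  rw [hch, p0, p1, p2, hla]
  unfold op
  simp only [map_add, map_sub, map_mul, aeval_X, hf, hg, p2, p3, map_ofNat]
  rw [← hth]
  ring

end Pool.Agent.PPZ.H65
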